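import Pool.Agent.U469.EW.Stm

set_option autoImplicit false

/-!
Project EW, package TA: the energy equality from windows in which the part of the field tends to
zero in `L²(0,T;L^∞)`.
-/

open MeasureTheory Set Filter Topology
open scoped ENNReal

namespace Pool.Agent.U278.EW.TA

open Pool.Agent.U469.EW

theorem sup_fin (W : Finset Wv) (a : Fld) : (⨆ y, ENNReal.ofReal (amp W a y)) ≠ ⊤ := by
  have h : ∀ y, amp W a y ≤ ∑ i : Fin 3, (∑ k ∈ W, ‖a k i‖) ^ 2 := by
    intro y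
    unfold amp
    refine Finset.sum_le_sum fun i _ => ?_
    refine pow_le_pow_left₀ (norm_nonneg _) ?_ 2
    unfold ev
    refine (norm_sum_le _ _).trans (Finset.sum_le_sum fun k _ => ?_)
    rw [norm_mul]
    have : ‖ch k y‖ = 1 := by
      unfold ch
      have e : 2 * (Real.pi : ℂ) * Complex.I * ∑ i, (k i : ℂ) * (y i : ℂ) =
          ((2 * Real.pi * ∑ i, (k i : ℝ) * y i : ℝ) : ℂ) * Complex.I := by
        push_cast
        ring
      rw [e]
      exact Complex.norm_exp_ofReal_mul_I _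
    rw [this, mul_one]
  have h2 : (⨆ y, ENNReal.ofReal (amp W a y)) ≤
      ENNReal.ofReal (∑ i : Fin 3, (∑ k ∈ W, ‖a k i‖) ^ 2) :=
    iSup_le fun y => ENNReal.ofReal_le_ofReal (h y)
  exact ne_top_of_le_ne_top ENNReal.ofReal_ne_top h2

theorem nsq_nonneg (k : Wv) : 0 ≤ nsq k := by
  unfold nsq
  positivity

theorem sq_nonneg' (a : Fld) (k : Wv) : 0 ≤ sq a k := by
  unfold Pool.Agent.U469.EW.sq
  positivity

theorem tail_nonneg (A : ℕ) (a : Fld) : 0 ≤ tail A a := by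
  unfold tail
  refine tsum_nonneg fun k => ?_
  split_ifs
  · exact le_rfl
  · exact mul_nonneg (nsq_nonneg k) (sq_nonneg' a k)

/-- the pointwise bound of the flux -/
theorem ptw {C : ℝ} (hC : 0 < C)
    (hFA : ∀ a : Fld, Good a → ∀ A M : ℕ, 1 ≤ A → 2 * A ≤ M →
      ∀ s : ℝ, 0 ≤ s → (∀ y, amp (win A M) a y ≤ s ^ 2) →
      |flux (box A) (fun _ => 1) a| ≤ C * (s * √(∑' k, sq a k) * √(∑' k, nsq k * sq a k)
        + (A : ℝ) ^ (5 / 2 : ℝ) / (M : ℝ) ^ 2 * √(∑' k, sq a k) * tail A a))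
    {a : Fld} (ha : Good a) {E : ℝ} (hE : ∑' k, sq a k ≤ E) {A M : ℕ} (h1 : 1 ≤ A)
    (h2 : 2 * A ≤ M) {c : ℝ} (hc : 0 < c) (hM : c * (A : ℝ) ^ (5 / 4 : ℝ) ≤ M) {ε : ℝ}
    (hε : 0 < ε) :
    ENNReal.ofReal |flux (box A) (fun _ => 1) a| ≤
      (ENNReal.ofReal (C * √E * (ε / 2)) * ENNReal.ofReal (∑' k, nsq k * sq a k) +
        ENNReal.ofReal (C * √E * (1 / c ^ 2)) * ENNReal.ofReal (tail A a)) +
      ENNReal.ofReal (C * √E * (1 / (2 * ε))) * ⨆ y, ENNReal.ofReal (amp (win A M) a y) := by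
  have hfin := sup_fin (win A M) a
  set S := ⨆ y, ENNReal.ofReal (amp (win A M) a y) with hS
  obtain ⟨σ, hσ⟩ : ∃ σ : ℝ, σ = S.toReal := ⟨_, rfl⟩
  have hσ0 : 0 ≤ σ := by rw [hσ]; exact ENNReal.toReal_nonneg
  have hSσ : S = ENNReal.ofReal σ := by rw [hσ, ENNReal.ofReal_toReal hfin]
  have hamp : ∀ y, amp (win A M) a y ≤ (√σ) ^ 2 := by
    intro y
    rw [Real.sq_sqrt hσ0]
    have h3 : ENNReal.ofReal (amp (win A M) a y) ≤ ENNReal.ofReal σ := by
      rw [← hSσ, hS]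
      exact le_iSup (fun y => ENNReal.ofReal (amp (win A M) a y)) y
    exact (ENNReal.ofReal_le_ofReal_iff hσ0).mp h3
  have key := hFA a ha A M h1 h2 (√σ) (Real.sqrt_nonneg _) hamp
  obtain ⟨E1, hE1⟩ : ∃ E1 : ℝ, E1 = ∑' k, nsq k * sq a k := ⟨_, rfl⟩
  rw [← hE1] at key
  rw [← hE1]
  have hE10 : 0 ≤ E1 := by
    rw [hE1]
    exact tsum_nonneg fun k => mul_nonneg (nsq_nonneg k) (sq_nonneg' a k)
  have ht0 := tail_nonneg A a
  have hA0 : (0 : ℝ) < A := by exact_mod_cast h1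
  have hM0 : (0 : ℝ) < M := by
    have : 0 < M := by omega
    exact_mod_cast this
  have hratio : (A : ℝ) ^ (5 / 2 : ℝ) / (M : ℝ) ^ 2 ≤ 1 / c ^ 2 := by
    rw [div_le_div_iff₀ (by positivity) (by positivity)]
    have h4 : (c * (A : ℝ) ^ (5 / 4 : ℝ)) ^ 2 ≤ (M : ℝ) ^ 2 :=
      pow_le_pow_left₀ (by positivity) hM 2
    have h5 : ((A : ℝ) ^ (5 / 4 : ℝ)) ^ 2 = (A : ℝ) ^ (5 / 2 : ℝ) := by
      rw [← Real.rpow_natCast, ← Real.rpow_mul hA0.le]
      norm_num
    rw [mul_pow, h5] at h4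
    linarith
  have hsq : √(∑' k, sq a k) ≤ √E := Real.sqrt_le_sqrt hE
  have hyoung : √σ * √E1 ≤ ε / 2 * E1 + 1 / (2 * ε) * σ := by
    have e1 : E1 = √E1 ^ 2 := (Real.sq_sqrt hE10).symm
    have e2 : σ = √σ ^ 2 := (Real.sq_sqrt hσ0).symm
    have h6 : 0 ≤ (ε * √E1 - √σ) ^ 2 / (2 * ε) := by positivity
    have h7 : (ε * √E1 - √σ) ^ 2 / (2 * ε) =
        ε / 2 * √E1 ^ 2 + 1 / (2 * ε) * √σ ^ 2 - √σ * √E1 := by
      field_simp
      ring
    rw [h7, ← e1, ← e2] at h6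
    linarith
  have hbound : |flux (box A) (fun _ => 1) a| ≤
      (C * √E * (ε / 2) * E1 + C * √E * (1 / c ^ 2) * tail A a) +
        C * √E * (1 / (2 * ε)) * σ := by
    refine key.trans ?_
    have hs0 := Real.sqrt_nonneg (∑' k, sq a k)
    calc C * (√σ * √(∑' k, sq a k) * √E1 +
          (A : ℝ) ^ (5 / 2 : ℝ) / (M : ℝ) ^ 2 * √(∑' k, sq a k) * tail A a)
        = C * (√(∑' k, sq a k) * (√σ * √E1 +
          (A : ℝ) ^ (5 / 2 : ℝ) / (M : ℝ) ^ 2 * tail A a)) := by ring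
      _ ≤ C * (√E * ((ε / 2 * E1 + 1 / (2 * ε) * σ) + 1 / c ^ 2 * tail A a)) := by
          gcongr
      _ = _ := by ring
  have hCE : 0 ≤ C * √E := by positivity
  rw [hSσ]
  refine (ENNReal.ofReal_le_ofReal hbound).trans ?_
  rw [ENNReal.ofReal_add (by positivity) (by positivity),
    ENNReal.ofReal_add (by positivity) (by positivity),
    ENNReal.ofReal_mul (by positivity : 0 ≤ C * √E * (ε / 2)),
    ENNReal.ofReal_mul (by positivity : 0 ≤ C * √E * (1 / c ^ 2)),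
    ENNReal.ofReal_mul (by positivity : 0 ≤ C * √E * (1 / (2 * ε)))]

/-- TA: first criterion -/
theorem t_TA (hF : S_FA) (hG : S_GD) (hL : S_LIM) : S_TA := by
  intro ν T f u hT hu c hc A M hA hM hwin
  obtain ⟨C, hC, hFA⟩ := hF
  obtain ⟨hgood, hmt, hm1, hfin, htail⟩ := hG ν T f u hT hu
  obtain ⟨E, hE⟩ := hu.energy
  refine hL ν T f u hT hu (fun n => box (A n)) (fun _ _ => 1) (fun n k => ⟨zero_le_one, le_rfl⟩)
    ?_ ?_
  · intro k
    have h1 : ∀ᶠ n in atTop, (Finset.univ.sup fun i => (k i).natAbs) ≤ A n :=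
      hA.eventually_ge_atTop _
    filter_upwards [h1] with n hn
    refine ⟨?_, rfl⟩
    unfold box
    rw [Fintype.mem_piFinset]
    intro i
    have h2 : (k i).natAbs ≤ A n :=
      (Finset.le_sup (f := fun i => (k i).natAbs) (Finset.mem_univ i)).trans hn
    rw [Finset.mem_Icc]
    omega
  · set D := max E 0 with hD
    have hae : ∀ᵐ t ∂(volume.restrict (Icc 0 T)), Good (u t) ∧ ∑' k, sq (u t) k ≤ D := by
      filter_upwards [hgood, ae_restrict_mem measurableSet_Icc] with t ht htT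
      refine ⟨ht, ?_⟩
      have h1 := hE t htT
      rw [← ENNReal.ofReal_tsum_of_nonneg (fun k => sq_nonneg' (u t) k) ht.s0] at h1
      rcases le_or_gt 0 E with h0 | h0
      · exact ((ENNReal.ofReal_le_ofReal_iff h0).mp h1).trans (le_max_left _ _)
      · rw [ENNReal.ofReal_of_nonpos h0.le, nonpos_iff_eq_zero, ENNReal.ofReal_eq_zero] at h1
        exact h1.trans (le_max_right _ _)
    have hbig : ∀ᶠ n in atTop, 1 ≤ A n ∧ 2 * A n ≤ M n := by
      have h1 : Tendsto (fun n => ((A n : ℕ) : ℝ)) atTop atTop :=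
        tendsto_natCast_atTop_atTop.comp hA
      have h2 : Tendsto (fun n => c * ((A n : ℕ) : ℝ) ^ (1 / 4 : ℝ)) atTop atTop :=
        ((tendsto_rpow_atTop (by norm_num)).comp h1).const_mul_atTop hc
      filter_upwards [hA.eventually_ge_atTop 1, h2.eventually_ge_atTop 2] with n h3 h4
      refine ⟨h3, ?_⟩
      have hA0 : (0 : ℝ) < A n := by exact_mod_cast h3
      have h5 : (A n : ℝ) ^ (5 / 4 : ℝ) = (A n : ℝ) ^ (1 / 4 : ℝ) * A n := by
        rw [show (5 / 4 : ℝ) = 1 / 4 + 1 by norm_num, Real.rpow_add hA0, Real.rpow_one]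
      have h6 := hM n
      rw [h5] at h6
      have h7 : (2 : ℝ) * A n ≤ M n := by
        calc (2 : ℝ) * A n ≤ c * (A n : ℝ) ^ (1 / 4 : ℝ) * A n := by gcongr
          _ = c * ((A n : ℝ) ^ (1 / 4 : ℝ) * A n) := by ring
          _ ≤ M n := h6
      exact_mod_cast h7
    rw [ENNReal.tendsto_nhds_zero]
    intro δ hδ
    have hδ2 : 0 < δ / 2 := ENNReal.half_pos hδ.ne'
    have hlim1 : Tendsto (fun ε : ℝ => ENNReal.ofReal (C * √D * (ε / 2)) *
        ∫⁻ t in Icc 0 T, ENNReal.ofReal (∑' k, nsq k * sq (u t) k)) (𝓝[>] 0) (𝓝 0) := by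
      have h1 : Tendsto (fun ε : ℝ => ENNReal.ofReal (C * √D * (ε / 2))) (𝓝[>] 0)
          (𝓝 (ENNReal.ofReal (C * √D * (0 / 2)))) := by
        refine ENNReal.tendsto_ofReal (Tendsto.mono_left ?_ nhdsWithin_le_nhds)
        exact (continuous_const.mul (continuous_id.div_const 2)).tendsto 0
      have h2 := ENNReal.Tendsto.mul_const (b := ∫⁻ t in Icc 0 T,
        ENNReal.ofReal (∑' k, nsq k * sq (u t) k)) h1 (Or.inr hfin)
      simpa using h2
    obtain ⟨ε, hε1, hε0⟩ : ∃ ε : ℝ, (ENNReal.ofReal (C * √D * (ε / 2)) *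
        ∫⁻ t in Icc 0 T, ENNReal.ofReal (∑' k, nsq k * sq (u t) k)) ≤ δ / 2 ∧ 0 < ε := by
      have h1 := (ENNReal.tendsto_nhds_zero.mp hlim1) (δ / 2) hδ2
      exact (h1.and self_mem_nhdsWithin).exists
    have hlim2 : Tendsto (fun n => ENNReal.ofReal (C * √D * (1 / c ^ 2)) *
        (∫⁻ t in Icc 0 T, ENNReal.ofReal (tail (A n) (u t))) +
        ENNReal.ofReal (C * √D * (1 / (2 * ε))) *
        ∫⁻ t in Icc 0 T, ⨆ y, ENNReal.ofReal (amp (win (A n) (M n)) (u t) y)) atTop (𝓝 0) := by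
      have h1 := ENNReal.Tendsto.const_mul (a := ENNReal.ofReal (C * √D * (1 / c ^ 2)))
        (htail.comp hA) (Or.inr ENNReal.ofReal_ne_top)
      have h2 := ENNReal.Tendsto.const_mul (a := ENNReal.ofReal (C * √D * (1 / (2 * ε))))
        hwin (Or.inr ENNReal.ofReal_ne_top)
      have h3 := h1.add h2
      simpa [Function.comp_def] using h3
    filter_upwards [hbig, (ENNReal.tendsto_nhds_zero.mp hlim2) (δ / 2) hδ2] with n hn1 hn2
    have hae2 : ∀ᵐ t ∂(volume.restrict (Icc 0 T)),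
        ENNReal.ofReal |flux (box (A n)) (fun _ => 1) (u t)| ≤
          (ENNReal.ofReal (C * √D * (ε / 2)) * ENNReal.ofReal (∑' k, nsq k * sq (u t) k) +
            ENNReal.ofReal (C * √D * (1 / c ^ 2)) * ENNReal.ofReal (tail (A n) (u t))) +
          ENNReal.ofReal (C * √D * (1 / (2 * ε))) *
            ⨆ y, ENNReal.ofReal (amp (win (A n) (M n)) (u t) y) := by
      filter_upwards [hae] with t ht
      exact ptw hC hFA ht.1 ht.2 hn1.1 hn1.2 hc (hM n) hε0
    have hmA : AEMeasurable (fun t => ENNReal.ofReal (C * √D * (ε / 2)) *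
        ENNReal.ofReal (∑' k, nsq k * sq (u t) k)) (volume.restrict (Icc 0 T)) :=
      hm1.const_mul _
    have hmB : AEMeasurable (fun t => ENNReal.ofReal (C * √D * (1 / c ^ 2)) *
        ENNReal.ofReal (tail (A n) (u t))) (volume.restrict (Icc 0 T)) :=
      (hmt (A n)).const_mul _
    have hmAB : AEMeasurable (fun t => ENNReal.ofReal (C * √D * (ε / 2)) *
        ENNReal.ofReal (∑' k, nsq k * sq (u t) k) + ENNReal.ofReal (C * √D * (1 / c ^ 2)) *
        ENNReal.ofReal (tail (A n) (u t))) (volume.restrict (Icc 0 T)) := hmA.add hmB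
    calc ∫⁻ t in Icc 0 T, ENNReal.ofReal |flux (box (A n)) (fun _ => 1) (u t)|
        ≤ ∫⁻ t in Icc 0 T, ((ENNReal.ofReal (C * √D * (ε / 2)) *
            ENNReal.ofReal (∑' k, nsq k * sq (u t) k) +
            ENNReal.ofReal (C * √D * (1 / c ^ 2)) * ENNReal.ofReal (tail (A n) (u t))) +
          ENNReal.ofReal (C * √D * (1 / (2 * ε))) *
            ⨆ y, ENNReal.ofReal (amp (win (A n) (M n)) (u t) y)) := lintegral_mono_ae hae2
      _ = ENNReal.ofReal (C * √D * (ε / 2)) *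
            (∫⁻ t in Icc 0 T, ENNReal.ofReal (∑' k, nsq k * sq (u t) k)) +
          ENNReal.ofReal (C * √D * (1 / c ^ 2)) *
            (∫⁻ t in Icc 0 T, ENNReal.ofReal (tail (A n) (u t))) +
          ENNReal.ofReal (C * √D * (1 / (2 * ε))) *
            ∫⁻ t in Icc 0 T, ⨆ y, ENNReal.ofReal (amp (win (A n) (M n)) (u t) y) := by
          rw [lintegral_add_left' hmAB, lintegral_add_left' hmA,
            lintegral_const_mul' _ _ ENNReal.ofReal_ne_top,
            lintegral_const_mul' _ _ ENNReal.ofReal_ne_top,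
            lintegral_const_mul' _ _ ENNReal.ofReal_ne_top]
      _ ≤ δ / 2 + δ / 2 := by
          rw [add_assoc]
          exact add_le_add hε1 hn2
      _ = δ := ENNReal.add_halves δ

end Pool.Agent.U278.EW.TA
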